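import Pool.Agent.Q230.KM.Main

/-!
# No right random context rules are needed

A one-sided random context grammar has left random context rules `(A → x, U, W) ∈ P_L`, which rewrite
`u A v` to `u x v` if all nonterminals of `U` and none of `W` occur in `u`, and right random context
rules, where the same is required of `v`. The question is which is the least number `k_min` such that
every recursively enumerable language is generated by such a grammar with at most `k_min` right
random context rules (`k_min ≤ 2` was known).

**Result.** `k_min = 0`: the left random context grammars (`P_R = ∅`, with erasing rules) generate
all recursively enumerable languages.

**Proof.** A phrase structure grammar is simulated backwards by a nondeterministic queue machine (the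
queue is a cyclic word with an end marker; it is rotated, and a right hand side of a rule at the head
is replaced by the left hand side at the end). The queue machine is simulated by a one-sided random
context grammar, whose sentential forms are `w q c`, where `w` is the terminal word, `q` the queue
and `c` the control: a left rule marks the first symbol `X ↦ X'` of the queue (no nonterminals on the
left), a right rule changes `X'` to `X''` if the control is in a reading state, the control reads
`X''` by a left rule and passes to a waiting state, in which `X''` may vanish by a right rule; the
control proceeds if there is no `X''` on its left. Finally all right rules are removed by the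
starting theorem `Pool.Agent.S15649`.
-/

set_option autoImplicit false

namespace Pool.Agent.Results.MP_05b2f7_lc.KMinZero

open Pool.Agent.Q230.KM

/-- `Suffices k`: for every finite alphabet `T`, every recursively enumerable language over `T`
(i.e. every language generated by a phrase structure grammar) is generated by a one-sided random
context grammar with `|P_R| ≤ k`.

(A) The least such `k` is `0`, so `k_min = 0`.

(B) Explicitly: every recursively enumerable language is generated by a left random context grammar,
that is by a one-sided random context grammar with `P_R = ∅`. -/
theorem result :
    IsLeast {k : ℕ | Suffices k} 0 ∧
    ∀ (T : Type) [Finite T] (L : Set (List T)), IsRE L →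
      ∃ G : OSRC T, G.PR = ∅ ∧ G.Lang = L := by
  have hB : ∀ (T : Type) [Finite T] (L : Set (List T)), IsRE L →
      ∃ G : OSRC T, G.PR = ∅ ∧ G.Lang = L := fun T _ L hL => left_generates_re hL
  refine ⟨⟨?_, fun k _ => Nat.zero_le k⟩, hB⟩
  intro T hT L hL
  obtain ⟨G, h1, h2⟩ := hB T L hL
  exact ⟨G, by rw [h1]; simp, h2⟩

end Pool.Agent.Results.MP_05b2f7_lc.KMinZero
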